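import Pool.Agent.H.MP_b542c4_co.Basic
import Pool.Agent.Lib.helper1.Cfg

set_option autoImplicit false

namespace Pool.Agent.H.MP_f8f7ac_co
open Pool.Agent.H.MP_b542c4_co (mem_line)
open Pool.Agent.Lib.helper1.Cfg (third)

abbrev Z := ZMod 13

def Inc (p l : Z) : Prop := p = l ∨ p = l + 1 ∨ p = l + 4

instance (p l : Z) : Decidable (Inc p l) := by unfold Inc; infer_instance

def T (p : Z) : ℤ × ℤ :=
  [(0, -6), (9, -4), (21, 6), (12, 6), (27, 0), (-15, -24), (0, 6), (-3, 12), (48, 12), (-6, -6),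
    (6, -6), (33, 12), (3, -3)].getD p.val 0

def det (p l : Z) : ℤ :=
  ((T p).1 - (T l).1) * ((T (l + 1)).2 - (T l).2) - ((T p).2 - (T l).2) * ((T (l + 1)).1 - (T l).1)

theorem sepL : ∀ l l' : Z, l ≠ l' → ∃ p, Inc p l ∧ ¬ Inc p l' := by decide +kernel
theorem nx_ne : ∀ l : Z, l ≠ l + 1 := by decide +kernel
theorem T_inj : Function.Injective T := by decide +kernel
theorem T_det : ∀ p l, det p l = 0 ↔ Inc p l := by decide +kernel

noncomputable def PA (p : Z) : ℂ := ⟨(T p).1, (T p).2⟩
noncomputable def LA (l : Z) : AffineSubspace ℝ ℂ := line[ℝ, PA l, PA (l + 1)]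

theorem realA : Function.Injective PA ∧ Function.Injective LA ∧
    (∀ l, Module.finrank ℝ (LA l).direction = 1) ∧ ∀ p l, PA p ∈ LA l ↔ Inc p l := by
  have h1 : Function.Injective PA := fun p q h => by
    apply T_inj
    have a := congrArg Complex.re h
    have b := congrArg Complex.im h
    exact Prod.ext (Int.cast_injective (α := ℝ) a) (Int.cast_injective (α := ℝ) b)
  have h4 : ∀ p l, PA p ∈ LA l ↔ Inc p l := fun p l => by
    rw [LA, mem_line _ _ _ (h1.ne (nx_ne l)), ← T_det, ← Int.cast_eq_zero (α := ℝ)]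
    simp [PA, det]
  refine ⟨h1, fun l l' h => ?_, fun l => ?_, h4⟩
  · by_contra hne
    obtain ⟨p, a, b⟩ := sepL l l' hne
    exact b ((h4 p l').1 (h ▸ (h4 p l).2 a))
  · rw [LA, direction_affineSpan, vectorSpan_pair]
    exact finrank_span_singleton (vsub_ne_zero.2 (h1.ne (nx_ne l)))

theorem cfg1 : ∀ l, (Finset.univ.filter fun p => Inc p l).card = 3 := by decide +kernel
theorem cfg2 : ∀ p, (Finset.univ.filter fun l => Inc p l).card = 3 := by decide +kernel
theorem cfg3 : ∀ p q, p ≠ q → (Finset.univ.filter fun l => Inc p l ∧ Inc q l).card ≤ 1 := by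
  decide +kernel

def mu : Fin 3 → Z := ![1, 3, 9]
def sh : Fin 3 → Z := ![0, 12, 9]
def fP (k : Fin 3) (d x : Z) : Z := mu k * x + d
def fL (k : Fin 3) (d x : Z) : Z := mu k * x + d + sh k

theorem fP_bij : ∀ k d, Function.Bijective (fP k d) := by decide +kernel
theorem fL_bij : ∀ k d, Function.Bijective (fL k d) := by decide +kernel
theorem f_aut : ∀ k d p l, Inc (fP k d p) (fL k d l) ↔ Inc p l := by decide +kernel
theorem f_tr : ∀ p l, Inc p l → ∀ q m, Inc q m → ∃ k d, fP k d p = q ∧ fL k d l = m := by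
  decide +kernel

def Tri (a b c : Z) : Prop := a ≠ b ∧ a ≠ c ∧ b ≠ c ∧ ∃ l, Inc a l ∧ Inc b l ∧ Inc c l

instance (a b c : Z) : Decidable (Tri a b c) := by unfold Tri; infer_instance

def t (a b : Z) : Z := a + [0, 4, 0, 12, 1, 0, 0, 0, 0, 10, 9, 0, 3].getD (b - a).val 0

theorem tri_t : ∀ a b c, Tri a b c → c = t a b ∧ t a b ≠ a := by decide +kernel

def G (x : Z × Z × Z × Z) : ℕ → List Z
  | 0 => []
  | n + 1 => x.1 :: G (x.2.1, x.2.2.1, x.2.2.2, t x.1 x.2.1) n

theorem cls : ∀ a b, t a b ≠ a → ∀ c, t b c ≠ b → ∀ d, t c d ≠ c →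
    (G (a, b, c, d) 13).Nodup → (G (a, b, c, d) 17).drop 13 = [a, b, c, d] →
    ∃ k, G (a, b, c, d) 13 = (List.range 13).map fun i : ℕ => fP k a i := by
  decide +kernel

theorem G_eq (σ : Z → Z) (h : ∀ i, σ (i + 4) = t (σ i) (σ (i + 1))) (n : ℕ) : ∀ i : Z,
    G (σ i, σ (i + 1), σ (i + 2), σ (i + 3)) n = (List.range n).map fun j : ℕ => σ (i + j) := by
  induction n with
  | zero => intro i; rfl
  | succ n ih =>
    intro i
    rw [G, List.range_succ_eq_map, List.map_cons, List.map_map]
    have := ih (i + 1)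
    rw [← h]
    congr 1
    · simp
    · simp only [add_assoc] at this
      norm_num at this
      rw [this]
      congr 1
      ext j
      simp [add_comm]

theorem aut_cls (σ : Z → Z) (hi : Function.Injective σ)
    (h : ∀ i, Tri (σ i) (σ (i + 1)) (σ (i + 4))) : ∃ k, ∀ i, σ i = fP k (σ 0) i := by
  have h1 := fun i => (tri_t _ _ _ (h i)).1
  have h2 := fun i => (tri_t _ _ _ (h i)).2
  have e := fun n => G_eq σ h1 n 0
  simp only [zero_add] at e
  obtain ⟨k, hk⟩ := cls (σ 0) (σ 1) (h2 0) (σ 2) (h2 1) (σ 3)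
    (h2 2) (by
      rw [e]
      have : (List.range 13).map (fun j : ℕ => σ j) = ((List.range 13).map fun j : ℕ => (j : Z)).map σ := by
        rw [List.map_map]; rfl
      rw [this]
      exact List.Nodup.map hi (by decide)) (by rw [e]; rfl)
  refine ⟨k, fun i => ?_⟩
  rw [e, List.map_inj_left] at hk
  simpa using hk i.val (List.mem_range.2 (ZMod.val_lt i))

theorem cyc : ∀ k d, k ≠ 0 → ∃ x, Tri x (fP k d x) (fP k d (fP k d x)) ∧
    fP k d (fP k d (fP k d x)) = x := by decide +kernel

theorem gen : ∀ d : Z, d ≠ 0 → ∀ i : Z, ∃ n : Fin 13, i = (n.val : Z) * d := by decide +kernel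

theorem nosym (P : Z → ℂ) (L : Z → AffineSubspace ℝ ℂ) (h1 : Function.Injective P)
    (h3 : ∀ l, Module.finrank ℝ (L l).direction = 1) (h4 : ∀ p l, P p ∈ L l ↔ Inc p l)
    (g : ℂ ≃ᵢ ℂ) (hP : ∀ p, ∃ q, P q = g (P p)) (hL : ∀ l, ∃ m, (L m : Set ℂ) = g '' L l) :
    g = 1 := by
  choose σ hσ using hP
  have hi : Function.Injective σ := fun p q hpq => by
    apply h1
    apply g.injective
    rw [← hσ, ← hσ, hpq]
  have ht : ∀ i, Tri (σ i) (σ (i + 1)) (σ (i + 4)) := fun i => by
    obtain ⟨m, hm⟩ := hL i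
    have : ∀ p, Inc p i → Inc (σ p) m := fun p hp => by
      rw [← h4, ← SetLike.mem_coe, hm, hσ]
      exact ⟨_, (h4 p i).2 hp, rfl⟩
    refine ⟨hi.ne (nx_ne i), hi.ne (by simp; decide), hi.ne (by simp; decide), m,
      this _ (.inl rfl), this _ (.inr (.inl rfl)), this _ (.inr (.inr rfl))⟩
  obtain ⟨k, hk⟩ := aut_cls σ hi ht
  have col : ∀ a b c, Tri a b c → ∃ r : ℝ, r ≠ 0 ∧ r ≠ 1 ∧ P c = P a + r • (P b - P a) := by
    rintro a b c ⟨ab, ac, bc, l, x, y, z⟩
    obtain ⟨r, hr⟩ := third (h3 l) (h1.ne ab) ((h4 _ _).2 x) ((h4 _ _).2 y) ((h4 _ _).2 z)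
    refine ⟨r, ?_, ?_, hr⟩
    · rintro rfl
      exact ac (h1 (by simpa using hr.symm))
    · rintro rfl
      exact bc (h1 (by simpa using hr.symm))
  by_cases k0 : k = 0
  · subst k0
    by_cases d0 : σ 0 = 0
    · have fix : ∀ i, g (P i) = P i := fun i => by rw [← hσ, hk, d0]; simp [fP, mu]
      ext z
      by_contra hz
      have hz' : g z ≠ z := hz
      have hd : ∀ i, dist (g z) (P i) = dist z (P i) := fun i => by
        rw [← g.dist_eq z (P i), fix]
      have hq : ∀ i, ((g z).re - (P i).re) ^ 2 + ((g z).im - (P i).im) ^ 2 =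
          (z.re - (P i).re) ^ 2 + (z.im - (P i).im) ^ 2 := fun i => by
        have := hd i
        rw [Complex.dist_eq_re_im, Complex.dist_eq_re_im] at this
        exact (Real.sqrt_inj (by positivity) (by positivity)).1 this
      have : P 2 ∈ line[ℝ, P 0, P 1] := by
        rw [mem_line _ _ _ (h1.ne (by decide))]
        have a0 := hq 0
        have a1 := hq 1
        have a2 := hq 2
        by_contra hne
        apply hz'
        apply Complex.ext
        · apply mul_left_cancel₀ hne
          linear_combination (1 / 2 * ((P 2).im - (P 1).im)) * a0 * (-1) -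
            (1 / 2 * ((P 0).im - (P 2).im)) * a1 - (1 / 2 * ((P 1).im - (P 0).im)) * a2
        · apply mul_left_cancel₀ hne
          linear_combination (1 / 2 * ((P 2).re - (P 1).re)) * a0 +
            (1 / 2 * ((P 0).re - (P 2).re)) * a1 + (1 / 2 * ((P 1).re - (P 0).re)) * a2
      have h2 : P 2 ∈ L 0 := (affineSpan_pair_le_of_mem_of_mem ((h4 0 0).2 (by decide))
        ((h4 1 0).2 (by decide))) this
      exact absurd ((h4 _ _).1 h2) (by decide)
    · exfalso
      set c : ℂ := (1 / 13 : ℝ) • ∑ i, P i with hc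
      have gc : g c = c := by
        have s1 : ∑ p, P (σ p) = ∑ p, P p := hi.bijective_of_finite.sum_comp P
        have s2 : g.toRealLinearIsometryEquiv c =
            (1 / 13 : ℝ) • ∑ p, g.toRealLinearIsometryEquiv (P p) := by
          rw [hc, map_smul, map_sum]
        simp only [IsometryEquiv.toRealLinearIsometryEquiv_apply, Finset.sum_sub_distrib, ← hσ, s1,
          Finset.sum_const, Finset.card_univ, ZMod.card] at s2
        rw [sub_eq_iff_eq_add] at s2
        rw [s2, hc]
        simp only [Complex.real_smul]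
        push_cast
        ring
      have st : ∀ i, dist (P (i + σ 0)) c = dist (P i) c := fun i => by
        have : σ i = i + σ 0 := by rw [hk i]; simp [fP, mu]
        rw [← this, hσ, ← g.dist_eq (P i) c, gc]
      have al : ∀ n : ℕ, dist (P (n * σ 0)) c = dist (P 0) c := fun n => by
        induction n with
        | zero => simp
        | succ n ih => rw [← ih, ← st (n * σ 0)]; push_cast; rw [add_mul, one_mul]
      have al' : ∀ i, ((P i).re - c.re) ^ 2 + ((P i).im - c.im) ^ 2 =
          ((P 0).re - c.re) ^ 2 + ((P 0).im - c.im) ^ 2 := fun i => by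
        obtain ⟨n, rfl⟩ := gen _ d0 i
        have := al n.val
        rw [Complex.dist_eq_re_im, Complex.dist_eq_re_im] at this
        exact (Real.sqrt_inj (by positivity) (by positivity)).1 this
      obtain ⟨r, r0, r1, hr⟩ := col 0 1 4 (by decide)
      have a1 := al' 1
      have a4 := al' 4
      rw [hr] at a4
      simp at a4
      have : r * (r - 1) * (((P 1).re - (P 0).re) ^ 2 + ((P 1).im - (P 0).im) ^ 2) = 0 := by
        linear_combination a4 - r * a1
      have := (mul_eq_zero.1 this).resolve_left (mul_ne_zero r0 (sub_ne_zero.2 r1))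
      exact absurd (h1 (Complex.ext (by nlinarith) (by nlinarith) : P 1 = P 0)) (by decide)
  · exfalso
    obtain ⟨x, hx, hx3⟩ := cyc k (σ 0) k0
    simp only [← hk] at hx hx3
    obtain ⟨r, r0, r1, hr⟩ := col _ _ _ hx
    have e1 : dist (P (σ x)) (P (σ (σ x))) = dist (P x) (P (σ x)) := by
      rw [hσ (σ x), hσ x, g.dist_eq, ← hσ x]
    have e2 : dist (P (σ (σ x))) (P x) = dist (P x) (P (σ x)) := by
      rw [← e1, ← g.dist_eq (P (σ x)), ← hσ, ← hσ, hx3]
    rw [Complex.dist_eq_re_im, Complex.dist_eq_re_im] at e1 e2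
    have f1 := (Real.sqrt_inj (by positivity) (by positivity)).1 e1
    have f2 := (Real.sqrt_inj (by positivity) (by positivity)).1 e2
    rw [hr] at f1 f2
    simp at f1 f2
    have hN : ((P x).re - (P (σ x)).re) ^ 2 + ((P x).im - (P (σ x)).im) ^ 2 ≠ 0 := fun h =>
      hx.1 (h1 (Complex.ext (by nlinarith) (by nlinarith)))
    have g1 : r * (r - 2) = 0 := by
      apply mul_left_cancel₀ hN
      linear_combination f1
    have g2 : r ^ 2 = 1 := by
      apply mul_left_cancel₀ hN
      linear_combination f2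
    have := (mul_eq_zero.1 g1).resolve_left r0
    nlinarith

end Pool.Agent.H.MP_f8f7ac_co
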